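import Pool.Agent.H37.UM.Stmts

/-!
# Project UM (MP_a56223_co): module IVF
-/

set_option autoImplicit false

namespace Pool.Agent.H37.UM

open PowerSeries Finset

namespace IVF

theorem df_XX' (N k : ℕ) : df (XX N) k = 2 * N * df (P N) k - (N + 2) * df (T N) k := by
  have e : XX N = PowerSeries.C (2 * N : ℤ) * P N - PowerSeries.C (N + 2 : ℤ) * T N := by
    rw [XX]; simp
  have h1 : ∀ (a : ℤ) (f : ℤ⟦X⟧), coeff k ((1 - X) * (PowerSeries.C a * f)) =
      a * coeff k ((1 - X) * f) := by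
    intro a f
    have : (1 - X) * (PowerSeries.C a * f) = PowerSeries.C a * ((1 - X) * f) := by ring
    rw [this, PowerSeries.coeff_C_mul]
  rw [e, df, mul_sub, map_sub, h1, h1, df, df]

theorem main (hT : IVTStmt) (hE : IVEStmt) (hN : IVNStmt) (hU : IVUStmt) (n k : ℕ) (c : ℝ)
    (hn : 1300 ≤ n) (hk : 3 ≤ k) (hk2 : k ≤ 70 ∨ 25 * k ^ 2 ≤ 81 * n) (hc0 : 0 < c) (hc : c ≤ 4.8)
    (hcase : (k = 3 ∧ c = 2) ∨ (4 ≤ k ∧ k ≤ 24 ∧ c = 2.7) ∨ (25 ≤ k ∧ c = 4.8)) :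
    0 ≤ df (XX n) k := by
  have hnR : (1300 : ℝ) ≤ n := by exact_mod_cast hn
  have hs : (36 : ℝ) ≤ √(n : ℝ) := by
    apply Real.le_sqrt_of_sq_le
    linarith
  have hs0 : (0 : ℝ) < √(n : ℝ) := by linarith
  have ht0 : 0 < c / √(n : ℝ) := div_pos hc0 hs0
  have ht1 : c / √(n : ℝ) < 1 := by
    rw [div_lt_one hs0]
    norm_num at hc ⊢
    linarith
  have hjm : ∀ j m, n ≤ j + (Nat.log 2 n + 1 + 2) → j ≤ n → 1 ≤ m → m ≤ k →
      (sk (m - 1) j : ℝ) ≤ c / √(n : ℝ) * sk m j := by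
    intro j m h1 h2 h3 h4
    obtain ⟨ha, hb, hd⟩ := hT n j m hn h2 (by omega) h3
    have key : √(n : ℝ) * sk (m - 1) j ≤ c * sk m j := by
      rcases hcase with ⟨h, rfl⟩ | ⟨h, h', rfl⟩ | ⟨h, rfl⟩
      · exact ha (by omega)
      · exact hb (by omega)
      · apply hd
        rcases hk2 with h5 | h5
        · left; omega
        · right
          have : m ^ 2 ≤ k ^ 2 := Nat.pow_le_pow_left h4 2
          omega
    rw [div_mul_eq_mul_div, le_div_iff₀ hs0]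
    linarith
  have h1 := hE n k (Nat.log 2 n + 1) (c / √(n : ℝ)) hn rfl hk ht0 ht1 hjm
  have h2 := hN n k (Nat.log 2 n + 1) (c / √(n : ℝ)) hn rfl (by
    rcases hcase with ⟨h, rfl⟩ | ⟨h, h', rfl⟩ | ⟨h, rfl⟩
    · left; exact ⟨h, rfl⟩
    · right; left; exact ⟨h, h', rfl⟩
    · right; right; exact ⟨h, rfl⟩)
  have h3 := hU n k hn (by omega) hk2
  have e : n - (Nat.log 2 n + 1 + 2) = n - (Nat.log 2 n + 3) := by omega
  rw [e] at h1
  set S := sk k (n - (Nat.log 2 n + 3)) with hS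
  have hS0 : (0 : ℝ) ≤ S := Nat.cast_nonneg _
  have h4 : |((df (P n) k : ℤ) : ℝ) - S| ≤ 0.8 * S :=
    le_trans h1 (mul_le_mul_of_nonneg_right h2 hS0)
  have h5 : (0.2 : ℝ) * S ≤ ((df (P n) k : ℤ) : ℝ) := by
    have := (abs_le.1 h4).1
    norm_num at this ⊢
    linarith
  have h6 : 4 * ((df (T n) k : ℤ) : ℝ) ≤ S := by
    have h7 : 4 * df (T n) k ≤ (S : ℤ) := by
      have := le_abs_self (df (T n) k)
      linarith
    exact_mod_cast h7
  have h8 : (0 : ℝ) ≤ ((df (XX n) k : ℤ) : ℝ) := by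
    rw [df_XX']
    push_cast
    norm_num at h5
    nlinarith
  exact_mod_cast h8

end IVF

theorem IVF_thm (hT : IVTStmt) (hE : IVEStmt) (hN : IVNStmt) (hU : IVUStmt) (h12 : IV12Stmt) :
    IVFStmt := by
  intro n k hn hk hk2
  rcases Nat.lt_or_ge k 3 with h | h
  · have : k = 1 ∨ k = 2 := by omega
    rcases this with rfl | rfl
    · exact (h12 n hn).1
    · exact (h12 n hn).2
  · rcases Nat.lt_or_ge k 4 with h4 | h4
    · exact IVF.main hT hE hN hU n k 2 hn h hk2 (by norm_num) (by norm_num)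
        (Or.inl ⟨by omega, rfl⟩)
    · rcases Nat.lt_or_ge k 25 with h5 | h5
      · exact IVF.main hT hE hN hU n k 2.7 hn h hk2 (by norm_num) (by norm_num)
          (Or.inr (Or.inl ⟨h4, by omega, rfl⟩))
      · exact IVF.main hT hE hN hU n k 4.8 hn h hk2 (by norm_num) (by norm_num)
          (Or.inr (Or.inr ⟨h5, rfl⟩))

end Pool.Agent.H37.UM
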