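import Pool.Agent.H37.UM.Stmts

/-!
# Project UM (MP_a56223_co): module ZX
-/

set_option autoImplicit false

namespace Pool.Agent.H37.UM

open PowerSeries Finset

namespace ZX

theorem U_self (N : ℕ) : U N N = 1 := by
  simp [U]

/-- facts on `b2 N` -/
theorem b2_facts (N : ℕ) (hN : 250 ≤ N) :
    b2 N + 100 ≤ N ∧ √(N : ℝ) ≤ (b2 N : ℝ) ∧ (b2 N : ℝ) ≤ √(N : ℝ) + 6 := by
  have h1 : Nat.sqrt N * Nat.sqrt N ≤ N := Nat.sqrt_le N
  have h2 : N < (Nat.sqrt N + 1) * (Nat.sqrt N + 1) := Nat.lt_succ_sqrt N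
  have h3 : Nat.sqrt N + 1 ≤ b2 N := by
    unfold b2; omega
  have h4 : b2 N ≤ Nat.sqrt N + 6 := by
    unfold b2; omega
  refine ⟨?_, ?_, ?_⟩
  · have : Nat.sqrt N + 106 ≤ N := by
      by_contra hc
      push Not at hc
      nlinarith
    omega
  · rw [Real.sqrt_le_left (Nat.cast_nonneg _)]
    have : (N : ℝ) ≤ ((Nat.sqrt N : ℝ) + 1) ^ 2 := by
      have := h2.le
      have h5 : (N : ℝ) ≤ ((Nat.sqrt N + 1) * (Nat.sqrt N + 1) : ℕ) := by exact_mod_cast this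
      push_cast at h5
      nlinarith
    have h6 : ((Nat.sqrt N : ℝ) + 1) ≤ (b2 N : ℝ) := by exact_mod_cast h3
    have h7 : (0 : ℝ) ≤ (Nat.sqrt N : ℝ) := Nat.cast_nonneg _
    nlinarith
  · have h5 : (Nat.sqrt N : ℝ) ≤ √(N : ℝ) := Real.nat_sqrt_le_real_sqrt
    have h6 : (b2 N : ℝ) ≤ (Nat.sqrt N : ℝ) + 6 := by exact_mod_cast h4
    linarith

theorem sqrt_facts (N : ℕ) (hN : 250 ≤ N) :
    15.8 ≤ √(N : ℝ) ∧ √(N : ℝ) * √(N : ℝ) = N := by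
  have hNR : (250 : ℝ) ≤ N := by exact_mod_cast hN
  refine ⟨?_, Real.mul_self_sqrt (by linarith)⟩
  apply Real.le_sqrt_of_sq_le
  norm_num
  linarith

theorem B0_facts (N : ℕ) (hN : 250 ≤ N) : 1 ≤ B0 N ∧ B0 N ^ 2 = 0.0676 * (N : ℝ) ^ 3 := by
  obtain ⟨h1, h2⟩ := sqrt_facts N hN
  have hNR : (250 : ℝ) ≤ N := by exact_mod_cast hN
  constructor
  · unfold B0
    norm_num at h1 ⊢
    nlinarith
  · unfold B0
    have : (0.26 * (N : ℝ) * √(N : ℝ)) ^ 2 = 0.0676 * (N : ℝ) ^ 2 * (√(N : ℝ) * √(N : ℝ)) := by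
      ring
    rw [this, h2]
    ring

theorem dU_ge (hD : DUBStmt) (N : ℕ) (hN : 250 ≤ N) : 4 * B0 N ≤ (dU (N - b2 N) N : ℝ) := by
  obtain ⟨h1, h2⟩ := sqrt_facts N hN
  obtain ⟨h3, h4, h5⟩ := b2_facts N hN
  have hNR : (250 : ℝ) ≤ N := by exact_mod_cast hN
  have h6 := hD.2.1 (Nat.sqrt N / 6 + 1) N (by
    have : 6 * (Nat.sqrt N / 6 + 1) = b2 N := rfl
    rw [this]; exact h3)
  have e : 6 * (Nat.sqrt N / 6 + 1) = b2 N := rfl
  rw [e] at h6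
  have h7 : (b2 N : ℝ) * (5 * N + 13) ≤ 4 * (dU (N - b2 N) N : ℝ) + 5 * (b2 N : ℝ) ^ 2 := by
    exact_mod_cast h6
  set b : ℝ := (b2 N : ℝ) with hb
  set s : ℝ := √(N : ℝ) with hs
  -- b (5N + 13 - 5 b) is at least s (5 N + 13 - 5 s)
  have h8 : s * (5 * N + 13 - 5 * s) ≤ b * (5 * N + 13 - 5 * b) := by
    have : 0 ≤ (b - s) * (5 * N + 13 - 5 * (b + s)) := by
      apply mul_nonneg (by linarith)
      nlinarith
    nlinarith
  have h9 : 4 * (4 * B0 N) ≤ s * (5 * N + 13 - 5 * s) := by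
    unfold B0
    rw [← hs]
    norm_num at h1
    nlinarith
  nlinarith

end ZX

theorem ZX_thm (hM1 : M1Stmt) (hPB : PBStmt) (hMA : MOAStmt) (hMB : MOBStmt) (hVA : VAStmt)
    (hSG : SGStmt) (hTU : TUStmt) (hDU : DUBStmt) (hIZ : IZStmt) (_hUU : UUStmt) : ZXStmt := by
  intro N k hN hk h1 h2
  obtain ⟨hs1, hs2⟩ := ZX.sqrt_facts N hN
  obtain ⟨hb1, hb2, hb3⟩ := ZX.b2_facts N hN
  obtain ⟨hB1, hB2⟩ := ZX.B0_facts N hN
  have hNR : (250 : ℝ) ≤ N := by exact_mod_cast hN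
  have hdU := ZX.dU_ge hDU N hN
  set b := b2 N with hbdef
  set q : ℝ := 1 - 2 / (N : ℝ) with hq
  have hN0 : (0 : ℝ) < N := by linarith
  have h2N : (2 : ℝ) / N ≤ 1 / 125 := by
    rw [div_le_div_iff₀ hN0 (by norm_num)]; linarith
  have h2N' : (0 : ℝ) < 2 / N := by positivity
  have hq0 : 0 < q := by rw [hq]; linarith
  have hq1 : q < 1 := by rw [hq]; linarith
  set M := N - b with hM
  set K0 : ℝ := (dg M : ℝ) / 2 with hK0
  -- the point r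
  obtain ⟨r, hr, hrk⟩ : ∃ r ∈ Set.Icc q 1, mu M r = (k : ℝ) - B0 N := by
    have hc : ContinuousOn (mu M) (Set.Icc q 1) :=
      (hMB.2.2.2.2.2 M).mono (fun x hx => lt_of_lt_of_le hq0 hx.1)
    have := intermediate_value_Icc hq1.le hc
    apply this
    rw [hMB.1 M]
    constructor <;> linarith
  have hr0 : 0 < r := lt_of_lt_of_le hq0 hr.1
  have hr1 : r ≤ 1 := hr.2
  -- PB at r
  have e6 : 6 * (Nat.sqrt N / 6 + 1) = b := rfl
  have hpb := hPB (Nat.sqrt N / 6 + 1) N k (B0 N) r (by omega) (by rw [e6]; exact hb1) hB1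
    (by rw [e6]; exact hdU) hr0 hr1 hk
  rw [e6, ← hM, hrk] at hpb
  have e7 : ((k : ℝ) - B0 N - (k - B0 N)) ^ 2 = 0 := by ring
  rw [e7, sub_zero] at hpb
  have hva : va M r ≤ 0.0643 * (N : ℝ) ^ 3 + 0.2 * (N : ℝ) ^ 2 := by
    have h3 := hVA.2.1 M r hr0 hr1
    have h4 := hSG.1 M
    have h5 : (M : ℝ) ≤ N := by exact_mod_cast Nat.sub_le N b
    have h6 : (0 : ℝ) ≤ M := Nat.cast_nonneg M
    have h7 : (M : ℝ) ^ 3 ≤ (N : ℝ) ^ 3 := pow_le_pow_left₀ h6 h5 3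
    have h8 : (M : ℝ) ^ 2 ≤ (N : ℝ) ^ 2 := pow_le_pow_left₀ h6 h5 2
    norm_num at h4 ⊢
    linarith
  have hone : 1 ≤ B0 N ^ 2 - va M r := by
    rw [hB2]
    have h3 : (250 : ℝ) * (N : ℝ) ^ 2 ≤ (N : ℝ) ^ 3 := by nlinarith [sq_nonneg (N : ℝ)]
    have h4 : (62500 : ℝ) ≤ (N : ℝ) ^ 2 := by nlinarith
    norm_num at hva ⊢
    linarith
  set Tr := Te M r with hTr
  have hTr0 : 0 < Tr := hMA.2.1 M r hr0
  have hB0pos : 0 < B0 N := by linarith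
  have hlow : r ^ (2 * B0 N) / B0 N ^ 2 * (r ^ k)⁻¹ * Tr ≤ ((df (T N) k : ℤ) : ℝ) := by
    refine le_trans ?_ hpb
    have h3 : 0 ≤ r ^ (2 * B0 N) / B0 N ^ 2 * (r ^ k)⁻¹ * Tr := by positivity
    nlinarith
  -- lower bound for Te at r
  have hTlow : (M.factorial : ℝ) * r ^ K0 ≤ Tr := hMA.2.2.2.1 M r hr0
  have hfac : (0 : ℝ) < (M.factorial : ℝ) := by exact_mod_cast Nat.factorial_pos M
  -- exponent
  have hkK : (k : ℝ) - K0 ≤ B0 N := by linarith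
  have hrpow : q ^ (2 * B0 N + K0 - k) ≤ r ^ (2 * B0 N + K0 - k) :=
    Real.rpow_le_rpow hq0.le hr.1 (by linarith)
  have hlow2 : (M.factorial : ℝ) * q ^ (2 * B0 N + K0 - k) / B0 N ^ 2 ≤
      ((df (T N) k : ℤ) : ℝ) := by
    refine le_trans ?_ hlow
    have e1 : r ^ (2 * B0 N + K0 - k) = r ^ (2 * B0 N) * r ^ K0 * (r ^ k)⁻¹ := by
      rw [Real.rpow_sub hr0, Real.rpow_add hr0, Real.rpow_natCast, div_eq_mul_inv]
    calc (M.factorial : ℝ) * q ^ (2 * B0 N + K0 - k) / B0 N ^ 2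
        ≤ (M.factorial : ℝ) * r ^ (2 * B0 N + K0 - k) / B0 N ^ 2 := by gcongr
      _ = r ^ (2 * B0 N) / B0 N ^ 2 * (r ^ k)⁻¹ * ((M.factorial : ℝ) * r ^ K0) := by
          rw [e1]; ring
      _ ≤ _ := by gcongr
  -- upper bound for Te N q
  have hTN : Te N q ≤ (N : ℝ) ^ b * ((M.factorial : ℝ) * q ^ K0 *
      Real.exp ((Real.log q) ^ 2 * (0.0643 * (N : ℝ) ^ 3 + 0.2 * (N : ℝ) ^ 2) / 2)) := by
    have h3 := hMA.2.2.2.2 b N q (by omega) hq0 hq1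
    have h4 := hTU M q hq0 hq1.le
    have h5 : (1 / (1 - q)) ^ b ≤ (N : ℝ) ^ b := by
      apply pow_le_pow_left₀
      · apply div_nonneg zero_le_one; linarith
      · have : 1 - q = 2 / N := by rw [hq]; ring
        rw [this, one_div_div]
        linarith
    have h6 : Real.exp ((Real.log q) ^ 2 * sg M / 2) ≤
        Real.exp ((Real.log q) ^ 2 * (0.0643 * (N : ℝ) ^ 3 + 0.2 * (N : ℝ) ^ 2) / 2) := by
      apply Real.exp_le_exp.2
      have h7 : sg M ≤ 0.0643 * (N : ℝ) ^ 3 + 0.2 * (N : ℝ) ^ 2 := by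
        have h4 := hSG.1 M
        have h5 : (M : ℝ) ≤ N := by exact_mod_cast Nat.sub_le N b
        have h6 : (0 : ℝ) ≤ M := Nat.cast_nonneg M
        have h7 : (M : ℝ) ^ 3 ≤ (N : ℝ) ^ 3 := pow_le_pow_left₀ h6 h5 3
        have h8 : (M : ℝ) ^ 2 ≤ (N : ℝ) ^ 2 := pow_le_pow_left₀ h6 h5 2
        norm_num at h4 ⊢
        linarith
      have := mul_le_mul_of_nonneg_left h7 (sq_nonneg (Real.log q))
      linarith
    have h7 : 0 < Te M q := hMA.2.1 M q hq0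
    calc Te N q ≤ (1 / (1 - q)) ^ b * Te M q := h3
      _ ≤ (N : ℝ) ^ b * Te M q := by gcongr
      _ ≤ (N : ℝ) ^ b * ((M.factorial : ℝ) * q ^ K0 *
          Real.exp ((Real.log q) ^ 2 * sg M / 2)) := by
            gcongr
      _ ≤ _ := by gcongr
  -- M1
  set A := A1 N q with hA
  have hm1 : ∀ j, N ≤ j + 2 → j ≤ N →
      |((df (U j N * Q j) k : ℤ) : ℝ)| ≤ 2 * (q ^ k)⁻¹ * Te N q * Real.exp (-A) := by
    intro j hj1 hj2
    exact hM1 N j k q (by omega) hj1 hj2 hq0 hq1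
  have ha := hm1 (N - 2) (by omega) (by omega)
  have hb := hm1 (N - 1) (by omega) (by omega)
  have hc := hm1 N (by omega) le_rfl
  rw [ZX.U_self, one_mul] at hc
  -- the inequality IZ
  have hiz := hIZ N (Real.log (1 / (1 - 2 / N))) hN rfl
  rw [← hq, ← hA] at hiz
  have es : Real.log (1 / q) = -Real.log q := by rw [one_div, Real.log_inv]
  rw [es] at hiz
  have hkey : 3 * (N : ℝ) ^ 2 * ((q ^ k)⁻¹ * Te N q * Real.exp (-A)) ≤
      (M.factorial : ℝ) * q ^ (2 * B0 N + K0 - k) / B0 N ^ 2 := by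
    have hexp : 3 * (N : ℝ) ^ 2 * (N : ℝ) ^ b *
        Real.exp ((Real.log q) ^ 2 * (0.0643 * (N : ℝ) ^ 3 + 0.2 * (N : ℝ) ^ 2) / 2) *
        Real.exp (-A) ≤ q ^ (2 * B0 N) / B0 N ^ 2 := by
      rw [le_div_iff₀ (by positivity)]
      have e1 : 3 * (N : ℝ) ^ 2 = Real.exp (Real.log (3 * (N : ℝ) ^ 2)) :=
        (Real.exp_log (by positivity)).symm
      have e2 : (N : ℝ) ^ b = Real.exp (b * Real.log N) := by
        rw [mul_comm, Real.exp_mul, Real.exp_log hN0, Real.rpow_natCast]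
      have e3 : B0 N ^ 2 = Real.exp (2 * Real.log (B0 N)) := by
        have : (2 : ℝ) * Real.log (B0 N) = Real.log (B0 N ^ 2) := by
          rw [Real.log_pow]; norm_num
        rw [this, Real.exp_log (by positivity)]
      have e4 : q ^ (2 * B0 N) = Real.exp (Real.log q * (2 * B0 N)) := Real.rpow_def_of_pos hq0 _
      rw [e1, e2, e3, e4, ← Real.exp_add, ← Real.exp_add, ← Real.exp_add, ← Real.exp_add]
      apply Real.exp_le_exp.2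
      have e5 : (-Real.log q) ^ 2 = (Real.log q) ^ 2 := by ring
      rw [e5] at hiz
      linarith
    have hqk : (q ^ k)⁻¹ = q ^ (-(k : ℝ)) := by
      rw [Real.rpow_neg hq0.le, Real.rpow_natCast]
    have e1 : q ^ (2 * B0 N + K0 - k) = q ^ (2 * B0 N) * q ^ K0 * (q ^ k)⁻¹ := by
      rw [Real.rpow_sub hq0, Real.rpow_add hq0, Real.rpow_natCast, div_eq_mul_inv]
    have hpos : 0 ≤ (M.factorial : ℝ) * q ^ K0 * (q ^ k)⁻¹ := by positivity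
    calc 3 * (N : ℝ) ^ 2 * ((q ^ k)⁻¹ * Te N q * Real.exp (-A))
        ≤ 3 * (N : ℝ) ^ 2 * ((q ^ k)⁻¹ * ((N : ℝ) ^ b * ((M.factorial : ℝ) * q ^ K0 *
          Real.exp ((Real.log q) ^ 2 * (0.0643 * (N : ℝ) ^ 3 + 0.2 * (N : ℝ) ^ 2) / 2))) *
            Real.exp (-A)) := by gcongr
      _ = (3 * (N : ℝ) ^ 2 * (N : ℝ) ^ b *
        Real.exp ((Real.log q) ^ 2 * (0.0643 * (N : ℝ) ^ 3 + 0.2 * (N : ℝ) ^ 2) / 2) *
        Real.exp (-A)) * ((M.factorial : ℝ) * q ^ K0 * (q ^ k)⁻¹) := by ring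
      _ ≤ (q ^ (2 * B0 N) / B0 N ^ 2) * ((M.factorial : ℝ) * q ^ K0 * (q ^ k)⁻¹) := by gcongr
      _ = (M.factorial : ℝ) * q ^ (2 * B0 N + K0 - k) / B0 N ^ 2 := by rw [e1]; ring
  have hfin : (N : ℝ) ^ 2 * (|((df (U (N - 2) N * Q (N - 2)) k : ℤ) : ℝ)| +
      |((df (U (N - 1) N * Q (N - 1)) k : ℤ) : ℝ)| + |((df (Q N) k : ℤ) : ℝ)|) ≤
      2 * ((df (T N) k : ℤ) : ℝ) := by
    have h3 : |((df (U (N - 2) N * Q (N - 2)) k : ℤ) : ℝ)| +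
      |((df (U (N - 1) N * Q (N - 1)) k : ℤ) : ℝ)| + |((df (Q N) k : ℤ) : ℝ)| ≤
      3 * (2 * (q ^ k)⁻¹ * Te N q * Real.exp (-A)) := by linarith
    have h4 : (N : ℝ) ^ 2 * (3 * (2 * (q ^ k)⁻¹ * Te N q * Real.exp (-A))) =
        2 * (3 * (N : ℝ) ^ 2 * ((q ^ k)⁻¹ * Te N q * Real.exp (-A))) := by ring
    calc _ ≤ (N : ℝ) ^ 2 * (3 * (2 * (q ^ k)⁻¹ * Te N q * Real.exp (-A))) := by gcongr
      _ = 2 * (3 * (N : ℝ) ^ 2 * ((q ^ k)⁻¹ * Te N q * Real.exp (-A))) := h4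
      _ ≤ 2 * ((df (T N) k : ℤ) : ℝ) := by linarith
  unfold ERR
  exact_mod_cast hfin

end Pool.Agent.H37.UM
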